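import Pool.Agent.Helper92_SBG.Stmts

/-!
Module BXL: word length of vectors with small coordinates.
-/

namespace Pool.Agent.SBG.H21

open Sy Pool.Agent.SBG

section general

variable {G : Type} [Group G] (S : Set G)

/-- `g` is a product of at most `m` letters -/
def WL (g : G) (m : ℕ) : Prop :=
  ∃ l : List G, l.length ≤ m ∧ (∀ x ∈ l, x ∈ S ∨ x⁻¹ ∈ S) ∧ l.prod = g

variable {S}

theorem WL.norm {g : G} {m : ℕ} (h : WL S g m) : wordNorm S g ≤ m := by
  obtain ⟨l, h1, h2, h3⟩ := h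
  refine (Nat.sInf_le (m := l.length) ?_).trans h1
  exact ⟨l, rfl, h2, h3⟩

theorem WL.mono {g : G} {m m' : ℕ} (h : WL S g m) (hm : m ≤ m') : WL S g m' := by
  obtain ⟨l, h1, h2, h3⟩ := h
  exact ⟨l, h1.trans hm, h2, h3⟩

theorem WL.one : WL S (1 : G) 0 := ⟨[], le_rfl, by simp, rfl⟩

theorem WL.mul {g g' : G} {m m' : ℕ} (h : WL S g m) (h' : WL S g' m') : WL S (g * g') (m + m') := by
  obtain ⟨l, h1, h2, h3⟩ := h
  obtain ⟨l', h1', h2', h3'⟩ := h'
  refine ⟨l ++ l', ?_, ?_, ?_⟩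
  · rw [List.length_append]
    omega
  · intro x hx
    rcases List.mem_append.1 hx with hx | hx
    · exact h2 x hx
    · exact h2' x hx
  · rw [List.prod_append, h3, h3']

theorem WL.inv {g : G} {m : ℕ} (h : WL S g m) : WL S g⁻¹ m := by
  obtain ⟨l, h1, h2, h3⟩ := h
  refine ⟨(l.map fun x => x⁻¹).reverse, ?_, ?_, ?_⟩
  · rw [List.length_reverse, List.length_map]
    exact h1
  · intro x hx
    rw [List.mem_reverse, List.mem_map] at hx
    obtain ⟨y, hy, rfl⟩ := hx
    rw [inv_inv]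
    exact (h2 y hy).symm
  · rw [← List.prod_inv_reverse, h3]

theorem WL.pow {g : G} {m : ℕ} (h : WL S g m) (n : ℕ) : WL S (g ^ n) (n * m) := by
  induction n with
  | zero =>
    rw [pow_zero, zero_mul]
    exact WL.one
  | succ n ih =>
    rw [pow_succ, add_mul, one_mul]
    exact ih.mul h

theorem WL.zpow {g : G} {m : ℕ} (h : WL S g m) (j : ℤ) : WL S (g ^ j) (j.natAbs * m) := by
  rcases Int.natAbs_eq j with hj | hj
  · have h1 := h.pow j.natAbs
    rw [← zpow_natCast, ← hj] at h1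
    exact h1
  · have h1 := (h.pow j.natAbs).inv
    rw [← zpow_natCast, ← zpow_neg, ← hj] at h1
    exact h1

theorem WL.exists (hS : Subgroup.closure S = ⊤) (g : G) : ∃ m, WL S g m := by
  have hg : g ∈ Subgroup.closure S := by
    rw [hS]
    exact Subgroup.mem_top g
  refine Subgroup.closure_induction (p := fun g _ => ∃ m, WL S g m) ?_ ?_ ?_ ?_ hg
  · intro x hx
    exact ⟨1, [x], le_rfl, by simpa using Or.inl hx, by simp⟩
  · exact ⟨0, WL.one⟩
  · rintro x y _ _ ⟨m, hm⟩ ⟨m', hm'⟩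
    exact ⟨_, hm.mul hm'⟩
  · rintro x _ ⟨m, hm⟩
    exact ⟨m, hm.inv⟩

end general

section vec

variable {k : ℕ}

/-- sizes -/
def Bd (n C : ℕ) (x : W k) : Prop := ∀ c, |x c| ≤ (C : ℤ) * (n : ℤ) ^ wt c

/-- vanishing in the weights below `w` -/
def Vn (w : ℕ) (x : W k) : Prop := ∀ c, wt c < w → x c = 0

theorem Bd.mono {n C C' : ℕ} {x : W k} (h : Bd n C x) (hC : C ≤ C') : Bd n C' x := by
  intro c
  refine (h c).trans (mul_le_mul_of_nonneg_right ?_ (pow_nonneg (Int.natCast_nonneg _) _))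
  exact_mod_cast hC

theorem Bd.add {n C C' : ℕ} {x y : W k} (h : Bd n C x) (h' : Bd n C' y) :
    Bd n (C + C') (x + y) := by
  intro c
  rw [Pi.add_apply, Nat.cast_add, add_mul]
  exact (abs_add_le _ _).trans (add_le_add (h c) (h' c))

theorem Bd.neg {n C : ℕ} {x : W k} (h : Bd n C x) : Bd n C (-x) := by
  intro c
  rw [Pi.neg_apply, abs_neg]
  exact h c

theorem Bd.sub {n C C' : ℕ} {x y : W k} (h : Bd n C x) (h' : Bd n C' y) :
    Bd n (C + C') (x - y) := by
  rw [sub_eq_add_neg]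
  exact h.add h'.neg

theorem bd_zin {n C : ℕ} {z : Fin 2 → ℤ} (h : ∀ j, |z j| ≤ (C : ℤ) * (n : ℤ) ^ 5) :
    Bd n C (zin z : W k) := by
  intro c
  rcases c with c | j
  · show |(0 : ℤ)| ≤ _
    rw [abs_zero]
    positivity
  · exact h j

theorem bd_Bf {n C C' : ℕ} (hn : 1 ≤ n) {x y : W k} (h : Bd n C x) (h' : Bd n C' y) :
    Bd n (16 * k * (C * C')) (Bf x y) := by
  apply bd_zin
  intro j
  have h1 := bz_bound hn x y (C : ℤ) (C' : ℤ) (Int.natCast_nonneg _) (Int.natCast_nonneg _)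
    (fun c => h (Sum.inl c)) (fun c => h' (Sum.inl c)) j
  push_cast
  exact h1

theorem bd_tp {n C : ℕ} (hn : 1 ≤ n) {x : W k} (h : Bd n C x) : Bd n (41 * C) (tp n x) := by
  have h1 := tp_bound hn x (C : ℤ) 1 (Int.natCast_nonneg _) le_rfl
    (fun c => h (Sum.inl c)) n (by rw [one_mul, abs_of_nonneg (Int.natCast_nonneg _)])
  have hn0 : (0 : ℤ) ≤ n := Int.natCast_nonneg n
  have hn1 : (1 : ℤ) ≤ n := by exact_mod_cast hn
  have hC : (0 : ℤ) ≤ C := Int.natCast_nonneg C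
  intro c
  push_cast
  rcases c with c | j
  · have h2 := h1.1 c
    have h3 : (0 : ℤ) ≤ (n : ℤ) ^ wtI c := pow_nonneg hn0 _
    show |tp n x (Sum.inl c)| ≤ 41 * C * (n : ℤ) ^ wtI c
    have h4 := mul_nonneg hC h3
    nlinarith
  · have h2 := h1.2 j
    have h3 := h (Sum.inr j)
    show |tp n x (Sum.inr j)| ≤ 41 * C * (n : ℤ) ^ 5
    have h3' : |x (Sum.inr j)| ≤ (C : ℤ) * (n : ℤ) ^ 5 := h3
    have h4 : (n : ℤ) ^ 4 ≤ (n : ℤ) ^ 5 := pow_le_pow_right₀ hn1 (by norm_num)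
    have h5 := mul_le_mul_of_nonneg_left h4 hC
    nlinarith

/-- `D` raises weights -/
theorem Dn_up {w : ℕ} {x : W k} (h : Vn w x) : Vn (w + 1) (Dn x) := by
  intro c hc
  rcases c with (⟨i, s⟩ | j) | j
  · have e : ∀ t : Sy, t.wt < w → x (Sum.inl (Sum.inl (i, t))) = 0 := fun t ht => h _ ht
    have hc' : s.wt < w + 1 := hc
    cases s <;> simp only [Sy.wt] at hc' <;>
      simp (disch := (simp only [Sy.wt]; omega)) [Dn, DSy, e]
  · have e : ∀ t : Fin 3, (t : ℕ) + 1 < w → x (Sum.inl (Sum.inr t)) = 0 := fun t ht => h _ ht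
    have hc' : (j : ℕ) + 1 < w + 1 := hc
    fin_cases j
    · rfl
    · exact e 0 (by simp at hc' ⊢; omega)
    · exact e 1 (by simp at hc' ⊢; omega)
  · have e : ∀ t : Fin 3, (t : ℕ) + 1 < w → x (Sum.inl (Sum.inr t)) = 0 := fun t ht => h _ ht
    have hc' : 5 < w + 1 := hc
    fin_cases j
    · rfl
    · exact e 2 (by simp; omega)

theorem Vn.mono {w w' : ℕ} {x : W k} (h : Vn w x) (hw : w' ≤ w) : Vn w' x :=
  fun c hc => h c (hc.trans_le hw)

/-- a right inverse of `D` on leading terms -/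
def pre (q : W k) : W k
  | Sum.inl (Sum.inl (i, s)) =>
    match s with
    | a3 => -q (Sum.inl (Sum.inl (i, a2)))
    | qb => q (Sum.inl (Sum.inl (i, b3)))
    | qc => q (Sum.inl (Sum.inl (i, c3)))
    | u1 => q (Sum.inl (Sum.inl (i, u2)))
    | v1 => q (Sum.inl (Sum.inl (i, v2)))
    | a2 => -q (Sum.inl (Sum.inl (i, a1)))
    | b3 => -q (Sum.inl (Sum.inl (i, b2)))
    | c3 => -q (Sum.inl (Sum.inl (i, c2)))
    | u2 => q (Sum.inl (Sum.inl (i, u3)))
    | v2 => q (Sum.inl (Sum.inl (i, v3)))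
    | b2 => -q (Sum.inl (Sum.inl (i, b1)))
    | c2 => -q (Sum.inl (Sum.inl (i, c1)))
    | u3 => q (Sum.inl (Sum.inl (i, yb)))
    | v3 => q (Sum.inl (Sum.inl (i, yc)))
    | _ => 0
  | Sum.inl (Sum.inr j) => ![q (Sum.inl (Sum.inr 1)), q (Sum.inl (Sum.inr 2)), 0] j
  | Sum.inr _ => 0

theorem pre_spec (q : W k) (c : Jx k) :
    pre q c = 0 ∨ ∃ c', wt c' = wt c + 1 ∧ (pre q c = q c' ∨ pre q c = -q c') := by
  rcases c with (⟨i, s⟩ | j) | j
  · cases s
    · exact Or.inl rfl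
    · exact Or.inr ⟨Sum.inl (Sum.inl (i, a1)), rfl, Or.inr rfl⟩
    · exact Or.inr ⟨Sum.inl (Sum.inl (i, a2)), rfl, Or.inr rfl⟩
    · exact Or.inl rfl
    · exact Or.inr ⟨Sum.inl (Sum.inl (i, b1)), rfl, Or.inr rfl⟩
    · exact Or.inr ⟨Sum.inl (Sum.inl (i, b2)), rfl, Or.inr rfl⟩
    · exact Or.inl rfl
    · exact Or.inr ⟨Sum.inl (Sum.inl (i, c1)), rfl, Or.inr rfl⟩
    · exact Or.inr ⟨Sum.inl (Sum.inl (i, c2)), rfl, Or.inr rfl⟩
    · exact Or.inr ⟨Sum.inl (Sum.inl (i, u2)), rfl, Or.inl rfl⟩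
    · exact Or.inr ⟨Sum.inl (Sum.inl (i, u3)), rfl, Or.inl rfl⟩
    · exact Or.inr ⟨Sum.inl (Sum.inl (i, yb)), rfl, Or.inl rfl⟩
    · exact Or.inr ⟨Sum.inl (Sum.inl (i, v2)), rfl, Or.inl rfl⟩
    · exact Or.inr ⟨Sum.inl (Sum.inl (i, v3)), rfl, Or.inl rfl⟩
    · exact Or.inr ⟨Sum.inl (Sum.inl (i, yc)), rfl, Or.inl rfl⟩
    · exact Or.inl rfl
    · exact Or.inl rfl
    · exact Or.inr ⟨Sum.inl (Sum.inl (i, b3)), rfl, Or.inl rfl⟩
    · exact Or.inr ⟨Sum.inl (Sum.inl (i, c3)), rfl, Or.inl rfl⟩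
  · fin_cases j
    · exact Or.inr ⟨Sum.inl (Sum.inr 1), rfl, Or.inl rfl⟩
    · exact Or.inr ⟨Sum.inl (Sum.inr 2), rfl, Or.inl rfl⟩
    · exact Or.inl rfl
  · exact Or.inl rfl

theorem Dn_pre {q : W k} {w : ℕ} (hw2 : 2 ≤ w) (hw4 : w ≤ 4) (hq : ∀ c, wt c ≠ w → q c = 0)
    (c : Jx k) (hc : wt c = w) : Dn (pre q) c = q c := by
  rcases c with (⟨i, s⟩ | j) | j
  · have e : ∀ t : Sy, t.wt ≠ w → q (Sum.inl (Sum.inl (i, t))) = 0 := fun t ht => hq _ ht
    have hc' : s.wt = w := hc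
    cases s <;> simp only [Sy.wt] at hc' <;> first
      | omega
      | simp (disch := (simp only [Sy.wt]; omega)) [Dn, DSy, pre, e]
  · have hc' : (j : ℕ) + 1 = w := hc
    fin_cases j
    · simp at hc'
      omega
    · rfl
    · rfl
  · have hc' : 5 = w := hc
    omega

end vec

section main

variable {k : ℕ} {S : Finset (Gp k)}

/-- the general form of the statements: a family of vectors can be reached in linear length -/
def Rch (S : Finset (Gp k)) (n C : ℕ) (x : W k) : Prop :=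
  Bd n C x ∧ WL (S : Set (Gp k)) ⟨0, x⟩ (C * n)

theorem Rch.mono {n C C' : ℕ} {x : W k} (h : Rch S n C x) (hC : C ≤ C') : Rch S n C' x :=
  ⟨h.1.mono hC, h.2.mono (Nat.mul_le_mul_right n hC)⟩

theorem Rch.mul {n C C' : ℕ} (hn : 1 ≤ n) {x y : W k} (h : Rch S n C x) (h' : Rch S n C' y) :
    Rch S n (C + C' + 16 * k * (C * C')) (x + y + Bf x y) := by
  refine ⟨(h.1.add h'.1).add (bd_Bf hn h.1 h'.1), ?_⟩
  have h1 := h.2.mul h'.2
  rw [Gp.mul0] at h1
  exact h1.mono (by nlinarith [Nat.zero_le (16 * k * (C * C') * n)])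

theorem Rch.zero (n : ℕ) : Rch S n 0 (0 : W k) := by
  refine ⟨fun c => ?_, ?_⟩
  · show |(0 : ℤ)| ≤ _
    rw [abs_zero]
    simp
  · rw [zero_mul]
    exact WL.one

theorem Bf_low {x y : W k} {c : Jx k} (hc : wt c ≤ 4) : Bf x y c = 0 := by
  rcases c with c | j
  · rfl
  · exact absurd hc (by show ¬ 5 ≤ 4; omega)

/-- a multiple of a unit vector -/
theorem rch_single (hS : Subgroup.closure (S : Set (Gp k)) = ⊤) (c : Jx k) (A : ℕ) :
    ∃ C : ℕ, ∀ n : ℕ, 1 ≤ n → ∀ j : ℤ, |j| ≤ A * n → Rch S n C (j • (Pi.single c 1 : W k)) := by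
  obtain ⟨m, hm⟩ := WL.exists hS (⟨0, Pi.single c 1⟩ : Gp k)
  refine ⟨A + A * m, ?_⟩
  intro n hn j hj
  have hn1 : (1 : ℤ) ≤ n := by exact_mod_cast hn
  refine ⟨fun c' => ?_, ?_⟩
  · rw [Pi.smul_apply, smul_eq_mul]
    by_cases h : c' = c
    · subst h
      rw [Pi.single_eq_same, mul_one]
      have hw : 1 ≤ wt c' := by
        rcases c' with (⟨i, s⟩ | j) | j
        · show 1 ≤ s.wt
          cases s <;> decide
        · show 1 ≤ (j : ℕ) + 1
          omega
        · show 1 ≤ 5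
          omega
      have h2 : (n : ℤ) ≤ (n : ℤ) ^ wt c' := le_self_pow₀ hn1 (by omega)
      push_cast
      calc |j| ≤ A * n := hj
        _ ≤ (A + A * m) * n := by
          refine mul_le_mul_of_nonneg_right ?_ (by omega)
          have : (0 : ℤ) ≤ (A : ℤ) * m := by positivity
          omega
        _ ≤ (A + A * m) * (n : ℤ) ^ wt c' := mul_le_mul_of_nonneg_left h2 (by positivity)
    · rw [Pi.single_eq_of_ne h, mul_zero, abs_zero]
      positivity
  · have h1 := hm.zpow j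
    rw [Gp.zpow0] at h1
    refine h1.mono ?_
    have h2 : j.natAbs ≤ A * n := by
      have : ((j.natAbs : ℕ) : ℤ) ≤ ((A * n : ℕ) : ℤ) := by
        rw [Int.natCast_natAbs]
        push_cast
        exact hj
      exact_mod_cast this
    calc j.natAbs * m ≤ A * n * m := Nat.mul_le_mul_right m h2
      _ = A * m * n := by ring
      _ ≤ (A + A * m) * n := Nat.mul_le_mul_right n (by omega)

/-- vectors with coordinates of size `n` -/
theorem rch_lin (hS : Subgroup.closure (S : Set (Gp k)) = ⊤) (A : ℕ) :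
    ∃ C : ℕ, ∀ n : ℕ, 1 ≤ n → ∀ r : W k, (∀ c, |r c| ≤ A * n) →
      ∃ x : W k, (∀ c, wt c ≤ 4 → x c = r c) ∧ Rch S n C x := by
  classical
  have key : ∀ T : Finset (Jx k), ∃ C : ℕ, ∀ n : ℕ, 1 ≤ n → ∀ r : W k, (∀ c, |r c| ≤ A * n) →
      ∃ x : W k, (∀ c, wt c ≤ 4 → x c = if c ∈ T then r c else 0) ∧ Rch S n C x := by
    intro T
    induction T using Finset.induction_on with
    | empty =>
      refine ⟨0, fun n hn r hr => ⟨0, fun c _ => ?_, Rch.zero n⟩⟩
      rw [if_neg (Finset.notMem_empty c)]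
      rfl
    | insert c₀ T hc₀ ih =>
      obtain ⟨C, hC⟩ := ih
      obtain ⟨C', hC'⟩ := rch_single hS c₀ A
      refine ⟨C + C' + 16 * k * (C * C'), fun n hn r hr => ?_⟩
      obtain ⟨x, hx1, hx2⟩ := hC n hn r hr
      have h1 := hC' n hn (r c₀) (hr c₀)
      refine ⟨_, fun c hc => ?_, hx2.mul hn h1⟩
      rw [Pi.add_apply, Pi.add_apply, Bf_low hc, add_zero, hx1 c hc, Pi.smul_apply, smul_eq_mul]
      by_cases h : c = c₀
      · subst h
        rw [if_neg hc₀, Pi.single_eq_same, if_pos (Finset.mem_insert_self _ _), mul_one, zero_add]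
      · rw [Pi.single_eq_of_ne h, mul_zero, add_zero]
        by_cases h2 : c ∈ T
        · rw [if_pos h2, if_pos (Finset.mem_insert_of_mem h2)]
        · rw [if_neg h2, if_neg]
          intro h3
          rcases Finset.mem_insert.1 h3 with h4 | h4
          · exact h h4
          · exact h2 h4
  obtain ⟨C, hC⟩ := key Finset.univ
  refine ⟨C, fun n hn r hr => ?_⟩
  obtain ⟨x, hx1, hx2⟩ := hC n hn r hr
  exact ⟨x, fun c hc => by rw [hx1 c hc, if_pos (Finset.mem_univ c)], hx2⟩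

/-- the commutator with `(n, 0)` -/
theorem comm_t (n : ℤ) (x : W k) : (⟨n, 0⟩ : Gp k) * ⟨0, x⟩ * (⟨n, 0⟩ : Gp k)⁻¹ *
    (⟨0, x⟩ : Gp k)⁻¹ = ⟨0, tp n x + -x + Bf (tp n x) (-x)⟩ := by
  rw [Gp.conj0, Gp.inv0, Gp.mul0]
  simp

/-- leading terms of weight `w` can be reached -/
def Lead (S : Finset (Gp k)) (w : ℕ) : Prop := ∀ A : ℕ, ∃ C : ℕ, ∀ n : ℕ, 1 ≤ n → ∀ z : W k,
  Bd n A z → Vn w z → ∃ x : W k, (∀ c, wt c ≤ w → x c = z c) ∧ Rch S n C x

theorem wt_pos (c : Jx k) : 1 ≤ wt c := by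
  rcases c with (⟨i, s⟩ | j) | j
  · show 1 ≤ s.wt
    cases s <;> decide
  · show 1 ≤ (j : ℕ) + 1
    omega
  · show 1 ≤ 5
    omega

theorem lead_one (hS : Subgroup.closure (S : Set (Gp k)) = ⊤) : Lead S 1 := by
  classical
  intro A
  obtain ⟨C, hC⟩ := rch_lin hS A
  refine ⟨C, fun n hn z hz _ => ?_⟩
  obtain ⟨x, hx1, hx2⟩ := hC n hn (fun c => if wt c = 1 then z c else 0) (by
    intro c
    by_cases h : wt c = 1
    · have h1 := hz c
      rw [h, pow_one] at h1
      rw [if_pos h]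
      exact h1
    · rw [if_neg h, abs_zero]
      positivity)
  refine ⟨x, fun c hc => ?_, hx2⟩
  rw [hx1 c (by omega), if_pos]
  have := wt_pos c
  omega

/-- coordinates of `T ^ n x - x` -/
theorem tp_lead {w : ℕ} {x : W k} (n : ℤ) (h : Vn w (Dn x)) (c : Jx k) (hc : wt c ≤ w) :
    tp n x c = x c + n * Dn x c := by
  have h2 := Dn_up h
  have h3 := (Dn_up h2).mono (Nat.le_succ (w + 1))
  rw [tp_expand]
  simp only [Fx, Pi.add_apply, Pi.smul_apply, smul_eq_mul]
  rw [h2 c (by omega), h3 c (by omega), mul_zero, mul_zero, add_zero, add_zero,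
    Ring.choose_one_right]

theorem lead_succ (hS : Subgroup.closure (S : Set (Gp k)) = ⊤) {w : ℕ} (hw : w + 1 ≤ 4)
    (hw1 : 1 ≤ w) (h : Lead S w) : Lead S (w + 1) := by
  classical
  intro A
  obtain ⟨C₁, hC₁⟩ := rch_lin hS 1
  obtain ⟨C₂, hC₂⟩ := h A
  obtain ⟨m, hm⟩ := WL.exists hS (⟨1, 0⟩ : Gp k)
  -- a bound for the commutator
  refine ⟨(41 * C₂ + C₂ + 16 * k * (41 * C₂ * C₂) + 2 * m) + C₁ +
    16 * k * ((41 * C₂ + C₂ + 16 * k * (41 * C₂ * C₂) + 2 * m) * C₁), fun n hn z hz hv => ?_⟩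
  have hn1 : (1 : ℤ) ≤ n := by exact_mod_cast hn
  have hn0 : (0 : ℤ) < n := by omega
  let q : W k := fun c => if wt c = w + 1 then z c / n else 0
  let r : W k := fun c => if wt c = w + 1 then z c % n else 0
  have hq : ∀ c, wt c ≠ w + 1 → q c = 0 := fun c hc => if_neg hc
  have hqb : ∀ c, |q c| ≤ (A : ℤ) * (n : ℤ) ^ w := by
    intro c
    by_cases hc : wt c = w + 1
    · have h1 := hz c
      rw [hc, pow_succ, ← mul_assoc, abs_le] at h1
      show |if wt c = w + 1 then z c / n else 0| ≤ _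
      rw [if_pos hc, abs_le]
      constructor
      · rw [Int.le_ediv_iff_mul_le hn0]
        linarith [h1.1]
      · exact Int.ediv_le_of_le_mul hn0 h1.2
    · rw [hq c hc, abs_zero]
      positivity
  have hp1 : Bd n A (pre q) := by
    intro c
    rcases pre_spec q c with h1 | ⟨c', h1, h2⟩
    · rw [h1, abs_zero]
      positivity
    · by_cases h3 : wt c' = w + 1
      · have h4 : wt c = w := by omega
        rw [h4]
        rcases h2 with h2 | h2
        · rw [h2]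
          exact hqb c'
        · rw [h2, abs_neg]
          exact hqb c'
      · rw [hq c' h3] at h2
        have h5 : pre q c = 0 := by
          rcases h2 with h2 | h2
          · exact h2
          · rw [h2, neg_zero]
        rw [h5, abs_zero]
        positivity
  have hp2 : Vn w (pre q) := by
    intro c hc
    rcases pre_spec q c with h1 | ⟨c', h1, h2⟩
    · exact h1
    · rw [hq c' (by omega)] at h2
      rcases h2 with h2 | h2
      · exact h2
      · rw [h2, neg_zero]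
  obtain ⟨x, hx1, hx2⟩ := hC₂ n hn (pre q) hp1 hp2
  obtain ⟨y, hy1, hy2⟩ := hC₁ n hn r (by
    intro c
    show |if wt c = w + 1 then z c % n else 0| ≤ _
    split_ifs
    · rw [abs_of_nonneg (Int.emod_nonneg _ hn0.ne')]
      have := Int.emod_lt_of_pos (z c) hn0
      push_cast
      linarith
    · rw [abs_zero]
      positivity)
  -- the commutator
  have hcm : Rch S n (41 * C₂ + C₂ + 16 * k * (41 * C₂ * C₂) + 2 * m)
      (tp n x + -x + Bf (tp n x) (-x)) := by
    refine ⟨(((bd_tp hn hx2.1).add hx2.1.neg).add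
      (bd_Bf hn (bd_tp hn hx2.1) hx2.1.neg)).mono (by omega), ?_⟩
    have h1 : WL (S : Set (Gp k)) (⟨n, 0⟩ : Gp k) (n * m) := by
      have h2 := hm.pow n
      have h3 : ∀ j : ℕ, (⟨1, 0⟩ : Gp k) ^ j = ⟨j, 0⟩ := by
        intro j
        induction j with
        | zero => rfl
        | succ j ih =>
          rw [pow_succ, ih]
          apply Gp.ext
          · simp
          · simp
      rwa [h3] at h2
    have h2 := ((h1.mul hx2.2).mul h1.inv).mul hx2.2.inv
    rw [comm_t] at h2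
    refine h2.mono ?_
    calc n * m + C₂ * n + n * m + C₂ * n = (2 * C₂ + 2 * m) * n := by ring
      _ ≤ _ := Nat.mul_le_mul_right n (by omega)
  refine ⟨_, fun c hc => ?_, hcm.mul hn hy2⟩
  have hc4 : wt c ≤ 4 := by omega
  rw [Pi.add_apply, Pi.add_apply, Bf_low hc4, add_zero, Pi.add_apply, Pi.add_apply, Bf_low hc4,
    add_zero, hy1 c hc4]
  have hxv : Vn w x := fun c hc => by rw [hx1 c hc.le, hp2 c hc]
  have hDx := Dn_up hxv
  rw [tp_lead (n : ℤ) hDx c hc, Pi.neg_apply]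
  -- the coordinates of `D x`
  have hD : Dn x c = q c := by
    by_cases h5 : wt c = w + 1
    · have h6 : Vn (w + 1) (x - pre q) := by
        intro c' hc'
        rw [Pi.sub_apply, hx1 c' (by omega), sub_self]
      have h7 := Dn_up h6 c (by omega)
      have h8 : Dn (x - pre q) = Dn x - Dn (pre q) := by
        rw [← Dh_apply, ← Dh_apply, ← Dh_apply, map_sub]
      rw [h8, Pi.sub_apply, sub_eq_zero] at h7
      rw [h7]
      exact Dn_pre (by omega) hw hq c h5
    · rw [hDx c (by omega), hq c h5]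
  rw [hD]
  by_cases h5 : wt c = w + 1
  · have h6 : q c = z c / n := if_pos h5
    have h7 : r c = z c % n := if_pos h5
    rw [h6, h7]
    have := Int.mul_ediv_add_emod (z c) n
    linarith
  · have h6 : q c = 0 := if_neg h5
    have h7 : r c = 0 := if_neg h5
    rw [h6, h7, hv c (by omega)]
    ring

/-- vectors of weight at least `w` with small coordinates have linear length -/
def Elm (S : Finset (Gp k)) (w : ℕ) : Prop := ∀ A : ℕ, ∃ C : ℕ, ∀ n : ℕ, 1 ≤ n → ∀ x : W k,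
  Bd n A x → Vn w x → WL (S : Set (Gp k)) ⟨0, x⟩ (C * n)

theorem elm_five (hk : 1 ≤ k) (hS : Subgroup.closure (S : Set (Gp k)) = ⊤) (h : Lead S 4) :
    Elm S 5 := by
  classical
  intro A
  obtain ⟨C₁, hC₁⟩ := h A
  obtain ⟨C₂, hC₂⟩ := rch_single hS (Sum.inr 0) 2
  obtain ⟨C₃, hC₃⟩ := rch_single hS (Sum.inr 1) 2
  let i₀ : Fin k := ⟨0, hk⟩
  obtain ⟨m, hm⟩ := WL.exists hS (⟨0, Pi.single (Sum.inl (Sum.inl (i₀, qb))) 1⟩ : Gp k)
  refine ⟨2 * C₁ + 2 * m + (C₂ + C₃), fun n hn z hz hv => ?_⟩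
  have hn1 : (1 : ℤ) ≤ n := by exact_mod_cast hn
  have hn0 : (0 : ℤ) < 2 * n := by omega
  let q : Fin 2 → ℤ := fun j => z (Sum.inr j) / (2 * n)
  let r : Fin 2 → ℤ := fun j => z (Sum.inr j) % (2 * n)
  have hqb : ∀ j, |q j| ≤ (A : ℤ) * (n : ℤ) ^ 4 := by
    intro j
    have h1 : |z (Sum.inr j)| ≤ (A : ℤ) * (n : ℤ) ^ 5 := hz (Sum.inr j)
    have h2 : (0 : ℤ) ≤ (A : ℤ) * (n : ℤ) ^ 5 := by positivity
    rw [abs_le] at h1
    show |z (Sum.inr j) / (2 * n)| ≤ _
    rw [abs_le]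
    constructor
    · rw [Int.le_ediv_iff_mul_le hn0]
      nlinarith [h1.1]
    · apply Int.ediv_le_of_le_mul hn0
      nlinarith [h1.2]
  let y : W k := q 0 • (Pi.single (Sum.inl (Sum.inl (i₀, yc))) 1 : W k) +
    q 1 • (Pi.single (Sum.inl (Sum.inl (i₀, yb))) 1 : W k)
  have hyc : ∀ c, y c = if c = Sum.inl (Sum.inl (i₀, yc)) then q 0 else
      if c = Sum.inl (Sum.inl (i₀, yb)) then q 1 else 0 := by
    intro c
    show (q 0 • (Pi.single (Sum.inl (Sum.inl (i₀, yc))) 1 : W k)) c +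
      (q 1 • (Pi.single (Sum.inl (Sum.inl (i₀, yb))) 1 : W k)) c = _
    rw [Pi.smul_apply, Pi.smul_apply, smul_eq_mul, smul_eq_mul]
    by_cases h1 : c = Sum.inl (Sum.inl (i₀, yc))
    · subst h1
      rw [if_pos rfl, Pi.single_eq_same, Pi.single_eq_of_ne (by simp), mul_one, mul_zero, add_zero]
    · rw [if_neg h1, Pi.single_eq_of_ne h1, mul_zero, zero_add]
      by_cases h2 : c = Sum.inl (Sum.inl (i₀, yb))
      · subst h2
        rw [if_pos rfl, Pi.single_eq_same, mul_one]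
      · rw [if_neg h2, Pi.single_eq_of_ne h2, mul_zero]
  have hy1 : Bd n A y := by
    intro c
    rw [hyc]
    split_ifs with h1 h2
    · rw [h1]
      exact hqb 0
    · rw [h2]
      exact hqb 1
    · rw [abs_zero]
      positivity
  have hy2 : Vn 4 y := by
    intro c hc
    rw [hyc, if_neg, if_neg]
    · rintro rfl
      exact absurd hc (show ¬ 4 < 4 by omega)
    · rintro rfl
      exact absurd hc (show ¬ 4 < 4 by omega)
  obtain ⟨x, hx1, hx2⟩ := hC₁ n hn y hy1 hy2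
  have hpv : pv x = pv y := by
    funext c
    refine hx1 (Sum.inl c) ?_
    rcases c with ⟨i, s⟩ | j
    · show s.wt ≤ 4
      cases s <;> decide
    · show (j : ℕ) + 1 ≤ 4
      omega
  have h1 : WL (S : Set (Gp k)) (⟨0, (n : ℤ) • Pi.single (Sum.inl (Sum.inl (i₀, qb))) 1⟩ : Gp k)
      (n * m) := by
    have h2 := hm.pow n
    rw [Gp.pow0] at h2
    have h3 : (n : ℤ) • (Pi.single (Sum.inl (Sum.inl (i₀, qb))) 1 : W k) =
        n • Pi.single (Sum.inl (Sum.inl (i₀, qb))) 1 := natCast_zsmul _ _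
    rw [h3]
    exact h2
  have h2 := ((hx2.2.mul h1).mul hx2.2.inv).mul h1.inv
  rw [Gp.comm0] at h2
  have hb : bz x ((n : ℤ) • Pi.single (Sum.inl (Sum.inl (i₀, qb))) 1) = (n : ℤ) • q := by
    have e1 : bz x ((n : ℤ) • Pi.single (Sum.inl (Sum.inl (i₀, qb))) 1) =
        bz y ((n : ℤ) • Pi.single (Sum.inl (Sum.inl (i₀, qb))) 1) := bz_congr hpv rfl
    rw [e1]
    have hpy : ∀ i s, pv y (Sum.inl (i, s)) = if i = i₀ then (if s = yc then q 0 else
        if s = yb then q 1 else 0) else 0 := by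
      intro i s
      show y (Sum.inl (Sum.inl (i, s))) = _
      rw [hyc]
      by_cases hi : i = i₀
      · subst hi
        simp
      · simp [hi]
    have hpe : ∀ i s, pv ((n : ℤ) • (Pi.single (Sum.inl (Sum.inl (i₀, qb))) 1 : W k))
        (Sum.inl (i, s)) = if i = i₀ then (if s = qb then (n : ℤ) else 0) else 0 := by
      intro i s
      show ((n : ℤ) • (Pi.single (Sum.inl (Sum.inl (i₀, qb))) 1 : W k))
        (Sum.inl (Sum.inl (i, s))) = _
      rw [Pi.smul_apply, smul_eq_mul]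
      by_cases hi : i = i₀
      · subst hi
        by_cases hs : s = qb
        · subst hs
          simp
        · rw [Pi.single_eq_of_ne (by simpa using hs)]
          simp [hs]
      · rw [Pi.single_eq_of_ne (by simp [hi])]
        simp [hi]
    funext j
    fin_cases j
    · show bf0 _ _ = (n : ℤ) • q 0
      unfold bf0
      rw [Finset.sum_eq_single i₀]
      · simp only [be0, hpy, hpe]
        simp
        ring
      · intro i _ hi
        simp only [be0, hpy, hpe, if_neg hi]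
        ring
      · intro hi
        exact absurd (Finset.mem_univ _) hi
    · show bf1 _ _ = (n : ℤ) • q 1
      unfold bf1
      rw [Finset.sum_eq_single i₀]
      · simp only [be1, hpy, hpe]
        simp
        ring
      · intro i _ hi
        simp only [be1, hpy, hpe, if_neg hi]
        ring
      · intro hi
        exact absurd (Finset.mem_univ _) hi
  have hr : ∀ j, |r j| ≤ (2 : ℕ) * n := by
    intro j
    show |z (Sum.inr j) % (2 * n)| ≤ _
    rw [abs_of_nonneg (Int.emod_nonneg _ hn0.ne')]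
    have := Int.emod_lt_of_pos (z (Sum.inr j)) hn0
    push_cast
    linarith
  have h3 := (hC₂ n hn (r 0) (hr 0)).2
  have h4 := (hC₃ n hn (r 1) (hr 1)).2
  have e0 : ∀ (t : ℤ), t • (Pi.single (Sum.inr 0) 1 : W k) = zin ![t, 0] := by
    intro t
    funext c
    rcases c with c | j
    · rw [Pi.smul_apply, Pi.single_eq_of_ne (by simp), smul_zero]
      rfl
    · fin_cases j
      · simp [zin]
      · show (t • (Pi.single (Sum.inr 0) 1 : W k)) (Sum.inr 1) = 0
        rw [Pi.smul_apply, Pi.single_eq_of_ne (by simp), smul_zero]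
  have e1 : ∀ (t : ℤ), t • (Pi.single (Sum.inr 1) 1 : W k) = zin ![0, t] := by
    intro t
    funext c
    rcases c with c | j
    · rw [Pi.smul_apply, Pi.single_eq_of_ne (by simp), smul_zero]
      rfl
    · fin_cases j
      · show (t • (Pi.single (Sum.inr 1) 1 : W k)) (Sum.inr 0) = 0
        rw [Pi.smul_apply, Pi.single_eq_of_ne (by simp), smul_zero]
      · simp [zin]
  have h5 := h2.mul (h3.mul h4)
  rw [e0, e1, Gp.mul0, Gp.mul0] at h5
  have h6 : 2 • Bf x ((n : ℤ) • Pi.single (Sum.inl (Sum.inl (i₀, qb))) 1) +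
      (zin ![r 0, 0] + zin ![0, r 1] + Bf (zin ![r 0, 0]) (zin ![0, r 1])) +
      Bf (2 • Bf x ((n : ℤ) • Pi.single (Sum.inl (Sum.inl (i₀, qb))) 1))
        (zin ![r 0, 0] + zin ![0, r 1] + Bf (zin ![r 0, 0]) (zin ![0, r 1])) = z := by
    rw [Bf_zin_left, add_zero, Bf_nsmul_left, Bf_Bf_left, smul_zero, add_zero]
    funext c
    rcases c with c | j
    · have hc : wt (Sum.inl c : Jx k) < 5 := by
        rcases c with ⟨i, s⟩ | j
        · show s.wt < 5
          cases s <;> decide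
        · show (j : ℕ) + 1 < 5
          omega
      rw [hv _ hc]
      show 2 • (0 : ℤ) + (0 + 0) = 0
      simp
    · show 2 • bz x ((n : ℤ) • Pi.single (Sum.inl (Sum.inl (i₀, qb))) 1) j +
        (![r 0, 0] j + ![0, r 1] j) = z (Sum.inr j)
      rw [hb]
      fin_cases j
      · show 2 • ((n : ℤ) • (z (Sum.inr 0) / (2 * n))) + (z (Sum.inr 0) % (2 * n) + 0) =
          z (Sum.inr 0)
        have := Int.mul_ediv_add_emod (z (Sum.inr 0)) (2 * n)
        rw [nsmul_eq_mul, smul_eq_mul]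
        push_cast
        linarith
      · show 2 • ((n : ℤ) • (z (Sum.inr 1) / (2 * n))) + (0 + z (Sum.inr 1) % (2 * n)) =
          z (Sum.inr 1)
        have := Int.mul_ediv_add_emod (z (Sum.inr 1)) (2 * n)
        rw [nsmul_eq_mul, smul_eq_mul]
        push_cast
        linarith
  rw [h6] at h5
  exact h5.mono (le_of_eq (by ring))

theorem elm_pred {w : ℕ} (hw : w ≤ 4) (h : Lead S w) (h' : Elm S (w + 1)) : Elm S w := by
  intro A
  obtain ⟨C₁, hC₁⟩ := h A
  obtain ⟨C₂, hC₂⟩ := h' (C₁ + A + 16 * k * (C₁ * A))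
  refine ⟨C₁ + C₂, fun n hn x hx hv => ?_⟩
  obtain ⟨y, hy1, hy2⟩ := hC₁ n hn x hx hv
  have h1 := hC₂ n hn (-y + x + Bf (-y) x) ((hy2.1.neg.add hx).add (bd_Bf hn hy2.1.neg hx)) (by
    intro c hc
    rw [Pi.add_apply, Bf_low (by omega), add_zero, Pi.add_apply, Pi.neg_apply, hy1 c (by omega),
      neg_add_cancel])
  have h2 := hy2.2.mul h1
  have h3 : (⟨0, y⟩ : Gp k) * ⟨0, -y + x + Bf (-y) x⟩ = ⟨0, x⟩ := by
    rw [← Gp.mul0, ← Gp.inv0, mul_inv_cancel_left]
  rw [h3] at h2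
  exact h2.mono (le_of_eq (by ring))

end main

/-- BXL -/
theorem bxl : BxlStmt := by
  intro k hk S hS A
  have l1 : Lead S 1 := lead_one hS
  have l2 : Lead S 2 := lead_succ hS (by omega) (by omega) l1
  have l3 : Lead S 3 := lead_succ hS (by omega) (by omega) l2
  have l4 : Lead S 4 := lead_succ hS (by omega) (by omega) l3
  have e5 := elm_five hk hS l4
  have e4 := elm_pred (by omega) l4 e5
  have e3 := elm_pred (by omega) l3 e4
  have e2 := elm_pred (by omega) l2 e3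
  have e1 := elm_pred (by omega) l1 e2
  obtain ⟨C, hC⟩ := e1 A
  refine ⟨C, fun n hn x hx => (hC n hn x hx ?_).norm⟩
  intro c hc
  have := wt_pos c
  omega

end Pool.Agent.SBG.H21
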