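import Pool.Agent.Helper92_SBG.Rd

/-!
Module LWA: the subgroup of the lower bound.
-/

namespace Pool.Agent.SBG.H21

open Sy Pool.Agent.SBG

/-- the symbols of the basis -/
def gs : Sy → Bool
  | a1 => true | a2 => true | a3 => true
  | b1 => true | b2 => true | b3 => false
  | c1 => true | c2 => true | c3 => false
  | u1 => false | u2 => false | u3 => true
  | v1 => false | v2 => false | v3 => true
  | yb => true | yc => true | qb => false | qc => false

/-- the coordinates of the basis -/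
def gd {k : ℕ} : Ix k → Bool
  | Sum.inl p => gs p.2
  | Sum.inr _ => true

/-- the further coordinates of the basis vectors -/
def ex {k : ℕ} (s : ℤ) : Ix k → Jx k → ℤ
  | Sum.inl (i, a3), Sum.inl (Sum.inl (i', b3)) => if i' = i then -s else 0
  | Sum.inl (i, a3), Sum.inl (Sum.inl (i', c3)) => if i' = i then s ^ 2 else 0
  | _, _ => 0

/-- the basis vectors -/
def gv {k : ℕ} (s : ℤ) (c : Ix k) : W k := fun c' => (if c' = Sum.inl c then 1 else 0) + ex s c c'

section

variable {k : ℕ} (s : ℤ)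

theorem ex_gd (c c' : Ix k) (h : gd c' = true) : ex s c (Sum.inl c') = 0 := by
  rcases c' with ⟨i', s'⟩ | j'
  · cases s' <;> first
      | (exfalso; simp [gd, gs] at h; done)
      | (rcases c with ⟨i, t⟩ | j
         · cases t <;> rfl
         · rfl)
  · rcases c with ⟨i, t⟩ | j
    · cases t <;> rfl
    · rfl

theorem gv_gd (c c' : Ix k) (h : gd c' = true) : gv s c (Sum.inl c') = if c' = c then 1 else 0 := by
  rw [gv, ex_gd s c c' h, add_zero]
  simp only [Sum.inl.injEq]

theorem gv_z (c : Ix k) (j : Fin 2) : gv s c (Sum.inr j) = 0 := by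
  rw [gv, if_neg (by simp)]
  rcases c with ⟨i, t⟩ | j
  · cases t <;> rfl
  · rfl

/-- the vectors on which the form vanishes -/
def Lz : AddSubgroup (W k) where
  carrier := {x | ∀ i, x (Sum.inl (Sum.inl (i, u1))) = 0 ∧ x (Sum.inl (Sum.inl (i, v1))) = 0 ∧
    x (Sum.inl (Sum.inl (i, u2))) = 0 ∧ x (Sum.inl (Sum.inl (i, v2))) = 0 ∧
    x (Sum.inl (Sum.inl (i, qb))) = 0 ∧ x (Sum.inl (Sum.inl (i, qc))) = 0 ∧
    x (Sum.inl (Sum.inl (i, b3))) = -s * x (Sum.inl (Sum.inl (i, a3))) ∧
    x (Sum.inl (Sum.inl (i, c3))) = s ^ 2 * x (Sum.inl (Sum.inl (i, a3)))}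
  zero_mem' := by
    intro i
    simp
  add_mem' := by
    intro x y hx hy i
    obtain ⟨h1, h2, h3, h4, h5, h6, h7, h8⟩ := hx i
    obtain ⟨g1, g2, g3, g4, g5, g6, g7, g8⟩ := hy i
    simp only [Pi.add_apply, h1, h2, h3, h4, h5, h6, h7, h8, g1, g2, g3, g4, g5, g6, g7, g8]
    refine ⟨by ring, by ring, by ring, by ring, by ring, by ring, by ring, by ring⟩
  neg_mem' := by
    intro x hx i
    obtain ⟨h1, h2, h3, h4, h5, h6, h7, h8⟩ := hx i
    simp only [Pi.neg_apply, h1, h2, h3, h4, h5, h6, h7, h8]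
    refine ⟨by ring, by ring, by ring, by ring, by ring, by ring, by ring, by ring⟩

theorem zin_mem_Lz (z : Fin 2 → ℤ) : (zin z : W k) ∈ Lz s := by
  intro i
  simp [zin]

theorem gv_mem_Lz (c : Ix k) (h : gd c = true) : gv s c ∈ Lz s := by
  intro i
  rcases c with ⟨i', t⟩ | j
  · cases t <;> first
      | (exfalso; simp [gd, gs] at h; done)
      | (by_cases hi : i = i' <;> simp [gv, ex, hi])
  · simp [gv, ex]

theorem bz_Lz {x y : W k} (hx : x ∈ Lz s) (hy : y ∈ Lz s) :
    bz x y = bf0 (pv x) (pv y) • ![1, -s] := by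
  have h : bf1 (pv x) (pv y) = -s * bf0 (pv x) (pv y) := by
    simp only [bf0, bf1, Finset.mul_sum]
    refine Finset.sum_congr rfl fun i _ => ?_
    obtain ⟨h1, h2, h3, h4, h5, h6, h7, h8⟩ := hx i
    obtain ⟨g1, g2, g3, g4, g5, g6, g7, g8⟩ := hy i
    simp only [be0, be1, pv, h1, h2, h3, h4, h5, h6, h7, h8, g1, g2, g3, g4, g5, g6, g7, g8]
    ring
  funext j
  fin_cases j
  · simp [bz]
  · simp [bz, h]
    ring

end

/-- the number of the basis vectors -/
noncomputable def rr (k : ℕ) : ℕ := Fintype.card {c : Ix k // gd c = true}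

/-- the enumeration of the basis -/
noncomputable def en (k : ℕ) : Fin (rr k) ≃ {c : Ix k // gd c = true} :=
  (Fintype.equivFin _).symm

/-- the weights of the basis -/
noncomputable def om (k : ℕ) (j : ℕ) : ℕ := if h : j < rr k then wtI (en k ⟨j, h⟩).1 else 0

/-- the scale -/
noncomputable def Yf (k n : ℕ) : ℕ → ℕ
  | 0 => n ^ 5
  | j + 1 => n ^ om k j * Yf k n j

theorem sum_om (k : ℕ) : ∑ j ∈ Finset.range (rr k), om k j = 34 * k + 6 := by
  rw [Finset.sum_range]
  have h1 : ∀ j : Fin (rr k), om k j = wtI (en k j).1 := by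
    intro j
    rw [om, dif_pos j.2]
  rw [Finset.sum_congr rfl fun j _ => h1 j,
    Fintype.sum_equiv (en k) (fun j => wtI (en k j).1) (fun c => wtI c.1) (fun _ => rfl)]
  have h2 : ∑ c : {c : Ix k // gd c = true}, wtI c.1 =
      ∑ c : Ix k, if gd c = true then wtI c else 0 := by
    rw [← Finset.sum_filter]
    exact (Finset.sum_subtype (Finset.univ.filter fun c : Ix k => gd c = true) (by simp) wtI).symm
  rw [h2, Fintype.sum_sum_type, Fintype.sum_prod_type]
  have h3 : ∀ i : Fin k, ∑ t : Sy, (if gd (Sum.inl (i, t) : Ix k) = true then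
      wtI (Sum.inl (i, t) : Ix k) else 0) = 34 := by
    intro i
    show ∑ t : Sy, (if gs t = true then t.wt else 0) = 34
    decide
  have h4 : ∑ j : Fin 3, (if gd (Sum.inr j : Ix k) = true then wtI (Sum.inr j : Ix k) else 0) =
      6 := by
    show ∑ j : Fin 3, (if true = true then (j : ℕ) + 1 else 0) = 6
    decide
  rw [Finset.sum_congr rfl fun i _ => h3 i, h4]
  simp
  ring

theorem Yf_last (k n : ℕ) : Yf k n (rr k) = n ^ (34 * k + 11) := by
  have h : ∀ j, Yf k n j = n ^ (5 + ∑ i ∈ Finset.range j, om k i) := by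
    intro j
    induction j with
    | zero => simp [Yf]
    | succ j ih =>
      rw [Yf, ih, Finset.sum_range_succ, ← pow_add]
      congr 1
      ring
  rw [h, sum_om]
  congr 1
  ring

theorem Yf_pos (k : ℕ) {n : ℕ} (hn : 0 < n) (j : ℕ) : 0 < Yf k n j := by
  induction j with
  | zero => exact pow_pos hn 5
  | succ j ih => exact Nat.mul_pos (pow_pos hn _) ih

/-- the functional -/
noncomputable def ps (k n : ℕ) (s : ℤ) : W k →+ ℤ :=
  AddMonoidHom.mk' (fun x => s * x (Sum.inr 0) + x (Sum.inr 1) +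
    ∑ j : Fin (rr k), s * Yf k n j * x (Sum.inl (en k j).1)) (by
    intro x y
    have h : ∑ j : Fin (rr k), s * Yf k n j * (x + y) (Sum.inl (en k j).1) =
        ∑ j : Fin (rr k), s * Yf k n j * x (Sum.inl (en k j).1) +
        ∑ j : Fin (rr k), s * Yf k n j * y (Sum.inl (en k j).1) := by
      rw [← Finset.sum_add_distrib]
      refine Finset.sum_congr rfl fun j _ => ?_
      rw [Pi.add_apply]
      ring
    show s * (x + y) (Sum.inr 0) + (x + y) (Sum.inr 1) + _ = _
    rw [h]
    simp only [Pi.add_apply]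
    ring)

theorem ps_apply (k n : ℕ) (s : ℤ) (x : W k) : ps k n s x = s * x (Sum.inr 0) + x (Sum.inr 1) +
    ∑ j : Fin (rr k), s * Yf k n j * x (Sum.inl (en k j).1) := rfl

theorem ps_zin (k n : ℕ) (s : ℤ) (z : Fin 2 → ℤ) : ps k n s (zin z) = s * z 0 + z 1 := by
  rw [ps_apply, Finset.sum_eq_zero, add_zero]
  · rfl
  · intro j _
    show s * Yf k n j * (0 : ℤ) = 0
    rw [mul_zero]

theorem ps_gv (k n : ℕ) (s : ℤ) (j : Fin (rr k)) : ps k n s (gv s (en k j).1) = s * Yf k n j := by
  rw [ps_apply, gv_z, gv_z, mul_zero, zero_add, zero_add, Finset.sum_eq_single j]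
  · rw [gv_gd s _ _ (en k j).2, if_pos rfl, mul_one]
  · intro j' _ hj'
    rw [gv_gd s _ _ (en k j').2, if_neg, mul_zero]
    intro h
    exact hj' ((en k).injective (Subtype.ext h))
  · intro h
    exact absurd (Finset.mem_univ j) h

theorem gv_bound {k : ℕ} {s : ℕ} (hs : 1 ≤ s) (c : Ix k) (c' : Jx k) :
    ((s ^ 2 : ℕ) : ℤ) ^ (wtI c) * |gv (s : ℤ) c c'| ≤ ((s ^ 2 : ℕ) : ℤ) ^ (wt c') := by
  have hs1 : (1 : ℤ) ≤ s := by exact_mod_cast hs
  have hn : (0 : ℤ) ≤ ((s ^ 2 : ℕ) : ℤ) := Int.natCast_nonneg _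
  have hn1 : (1 : ℤ) ≤ ((s ^ 2 : ℕ) : ℤ) := by
    push_cast
    nlinarith
  have hsn : (s : ℤ) ≤ ((s ^ 2 : ℕ) : ℤ) := by
    push_cast
    nlinarith
  by_cases h : c' = Sum.inl c
  · subst h
    have h1 : ex (s : ℤ) c (Sum.inl c) = 0 := by
      rcases c with ⟨i, t⟩ | j
      · cases t <;> rfl
      · rfl
    rw [gv, if_pos rfl, h1, add_zero, abs_one, mul_one]
    exact le_rfl
  · rw [gv, if_neg h, zero_add]
    have hz : ∀ z : ℤ, z = 0 → ((s ^ 2 : ℕ) : ℤ) ^ (wtI c) * |z| ≤
        ((s ^ 2 : ℕ) : ℤ) ^ (wt c') := by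
      rintro z rfl
      rw [abs_zero, mul_zero]
      exact pow_nonneg hn _
    rcases c with ⟨i, t⟩ | j
    · cases t <;> try exact hz _ rfl
      rcases c' with (⟨i', t'⟩ | j') | j'
      · cases t' <;> try exact hz _ rfl
        · by_cases hi : i' = i
          · subst hi
            show ((s ^ 2 : ℕ) : ℤ) ^ 1 * |if i' = i' then -(s : ℤ) else 0| ≤
              ((s ^ 2 : ℕ) : ℤ) ^ 2
            rw [if_pos rfl, abs_neg, abs_of_nonneg (by omega), pow_one,
              sq (((s ^ 2 : ℕ) : ℤ))]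
            exact mul_le_mul_of_nonneg_left hsn hn
          · apply hz
            show (if i' = i then -(s : ℤ) else 0) = 0
            rw [if_neg hi]
        · by_cases hi : i' = i
          · subst hi
            show ((s ^ 2 : ℕ) : ℤ) ^ 1 * |if i' = i' then (s : ℤ) ^ 2 else 0| ≤
              ((s ^ 2 : ℕ) : ℤ) ^ 2
            rw [if_pos rfl, abs_of_nonneg (by positivity)]
            push_cast
            exact le_of_eq (by ring)
          · apply hz
            show (if i' = i then (s : ℤ) ^ 2 else 0) = 0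
            rw [if_neg hi]
      · exact hz _ rfl
      · exact hz _ rfl
    · exact hz _ rfl

/-- mixed radix digits -/
theorem digits (k n : ℕ) {s : ℕ} (hs : 0 < s) (hn : 0 < n) : ∀ j v : ℕ,
    v ≤ 2 * (s * Yf k n j) → ∃ (d : ℕ → ℕ) (α β : ℕ),
      v = s * α + β + ∑ i ∈ Finset.range j, d i * (s * Yf k n i) ∧
      (∀ i, d i ≤ 2 * n ^ om k i) ∧ α ≤ 2 * n ^ 5 ∧ β ≤ s := by
  intro j
  induction j with
  | zero =>
    intro v hv
    refine ⟨fun _ => 0, v / s, v % s, ?_, fun i => Nat.zero_le _, ?_, (Nat.mod_lt v hs).le⟩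
    · rw [Finset.sum_range_zero, add_zero, Nat.div_add_mod]
    · rw [Yf] at hv
      rw [Nat.div_le_iff_le_mul_add_pred hs]
      calc v ≤ 2 * (s * n ^ 5) := hv
        _ = s * (2 * n ^ 5) := by ring
        _ ≤ _ := Nat.le_add_right _ _
  | succ j ih =>
    intro v hv
    have hY : 0 < s * Yf k n j := Nat.mul_pos hs (Yf_pos k hn j)
    obtain ⟨d, α, β, h1, h2, h3, h4⟩ := ih (v % (s * Yf k n j))
      ((Nat.mod_lt v hY).le.trans (by omega))
    let D : ℕ → ℕ := fun i => if i = j then v / (s * Yf k n j) else d i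
    have hDj : D j = v / (s * Yf k n j) := if_pos rfl
    have hDi : ∀ i, i ≠ j → D i = d i := fun i hi => if_neg hi
    refine ⟨D, α, β, ?_, ?_, h3, h4⟩
    · rw [Finset.sum_range_succ]
      have h5 : ∑ i ∈ Finset.range j, D i * (s * Yf k n i) =
          ∑ i ∈ Finset.range j, d i * (s * Yf k n i) := by
        refine Finset.sum_congr rfl fun i hi => ?_
        rw [hDi i (Finset.mem_range.1 hi).ne]
      rw [h5, hDj, ← add_assoc, ← h1]
      exact (Nat.mod_add_div' v (s * Yf k n j)).symm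
    · intro i
      by_cases hi : i = j
      · subst hi
        rw [hDj, Nat.div_le_iff_le_mul_add_pred hY]
        calc v ≤ 2 * (s * Yf k n (i + 1)) := hv
          _ = s * Yf k n i * (2 * n ^ om k i) := by
            rw [Yf]
            ring
          _ ≤ _ := Nat.le_add_right _ _
      · rw [hDi i hi]
        exact h2 i

/-- the additive group of the vectors of the subgroup -/
def AX {k : ℕ} (X : Finset (W k)) (s : ℤ) (hL : ∀ x ∈ X, x ∈ Lz s)
    (hz : (zin ![1, -s] : W k) ∈ X) : AddSubgroup (W k) where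
  carrier := {x | (⟨0, x⟩ : Gp k) ∈ HX X}
  zero_mem' := (HX X).one_mem
  add_mem' := by
    intro x y hx hy
    have hLz : ∀ g ∈ HX X, g.x ∈ Lz s := by
      intro g hg
      refine Subgroup.closure_induction (p := fun g _ => g.x ∈ Lz s) ?_ ?_ ?_ ?_ hg
      · rintro _ ⟨x, hx, rfl⟩
        exact hL x hx
      · exact (Lz s).zero_mem
      · intro g h hg hh h1 h2
        rw [Gp.mul_x, HX_m hg, tp_zero]
        exact (Lz s).add_mem ((Lz s).add_mem h1 h2) (zin_mem_Lz s _)
      · intro g hg h1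
        rw [Gp.inv_x, HX_m hg, neg_zero, tp_zero]
        exact (Lz s).neg_mem h1
    have h1 := bz_Lz s (hLz _ hx) (hLz _ hy)
    have h2 := (HX X).zpow_mem (mem_HX hz) (-(bf0 (pv x) (pv y)))
    have h3 := (HX X).mul_mem ((HX X).mul_mem hx hy) h2
    rw [Gp.mul0, Gp.zpow0, Gp.mul0, Bf_zsmul_right, Bf_zin_right, smul_zero, add_zero] at h3
    have h4 : x + y + Bf x y + -(bf0 (pv x) (pv y)) • (zin ![1, -s] : W k) = x + y := by
      have h5 : Bf x y = bf0 (pv x) (pv y) • (zin ![1, -s] : W k) := by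
        rw [Bf, h1]
        funext c
        rcases c with c | j
        · show (0 : ℤ) = bf0 (pv x) (pv y) • (0 : ℤ)
          rw [smul_zero]
        · rfl
      rw [h5, neg_smul]
      abel
    rw [h4] at h3
    exact h3
  neg_mem' := by
    intro x hx
    have h := (HX X).inv_mem hx
    rw [Gp.inv0] at h
    exact h

theorem mem_AX {k : ℕ} {X : Finset (W k)} {s : ℤ} {hL : ∀ x ∈ X, x ∈ Lz s}
    {hz : (zin ![1, -s] : W k) ∈ X} {x : W k} :
    x ∈ AX X s hL hz ↔ (⟨0, x⟩ : Gp k) ∈ HX X := Iff.rfl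

/-- the `j`-th basis vector -/
noncomputable def gn (k : ℕ) (s : ℤ) (j : ℕ) : W k :=
  if h : j < rr k then gv s (en k ⟨j, h⟩).1 else 0

theorem gn_eq {k : ℕ} (s : ℤ) (j : Fin (rr k)) : gn k s j = gv s (en k j).1 := by
  rw [gn, dif_pos j.2]

/-- what is subtracted from the basis vectors -/
noncomputable def pr (k n : ℕ) (s : ℤ) : ℕ → W k
  | 0 => zin ![(n : ℤ) ^ 5, 0]
  | j + 1 => ((n : ℤ) ^ om k j) • gn k s j

/-- LWA -/
theorem lwa : LwaStmt := by
  classical
  intro k
  refine ⟨2 * rr k + 2, ?_⟩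
  intro s hs p hp hp1 hp2
  set n := s ^ 2 with hn
  have hn0 : 0 < n := pow_pos (by omega) 2
  have hnZ : (0 : ℤ) ≤ (n : ℤ) := Int.natCast_nonneg n
  have hnZ1 : (1 : ℤ) ≤ (n : ℤ) := by exact_mod_cast hn0
  have hsn : s ≤ n := by
    rw [hn, pow_two]
    exact Nat.le_mul_self s
  obtain ⟨d, α, β, hd1, hd2, hα, hβ⟩ := digits k n (by omega : 0 < s) hn0 (rr k) p (by
    rw [Yf_last, hn, ← pow_mul, ← pow_succ']
    have e : 2 * (34 * k + 11) + 1 = 68 * k + 23 := by ring
    rw [e]
    exact hp2)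
  let hpv : W k := ∑ j ∈ Finset.range (rr k), (d j : ℤ) • gn k s j + zin ![(α : ℤ), (β : ℤ)]
  let X : Finset (W k) := insert (zin ![1, -(s : ℤ)]) (insert hpv
    ((Finset.range (rr k)).image fun j => gn k s j - pr k n s j))
  -- the vectors lie in the lattice
  have hgn : ∀ j, gn k (s : ℤ) j ∈ Lz (s : ℤ) := by
    intro j
    unfold gn
    split_ifs with h
    · exact gv_mem_Lz _ _ (en k ⟨j, h⟩).2
    · exact (Lz (s : ℤ)).zero_mem
  have hpr : ∀ j, pr k n (s : ℤ) j ∈ Lz (s : ℤ) := by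
    intro j
    rcases j with _ | j
    · exact zin_mem_Lz _ _
    · exact (Lz (s : ℤ)).zsmul_mem (hgn j) _
  have hhp : hpv ∈ Lz (s : ℤ) :=
    (Lz (s : ℤ)).add_mem ((Lz (s : ℤ)).sum_mem fun j _ => (Lz (s : ℤ)).zsmul_mem (hgn j) _)
      (zin_mem_Lz _ _)
  have hL : ∀ x ∈ X, x ∈ Lz (s : ℤ) := by
    intro x hx
    simp only [X, Finset.mem_insert, Finset.mem_image, Finset.mem_range] at hx
    rcases hx with rfl | rfl | ⟨j, -, rfl⟩
    · exact zin_mem_Lz _ _
    · exact hhp
    · exact (Lz (s : ℤ)).sub_mem (hgn j) (hpr j)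
  have hzX : (zin ![1, -(s : ℤ)] : W k) ∈ X := Finset.mem_insert_self _ _
  -- sizes
  have hgb : ∀ j (c : Jx k), (n : ℤ) ^ om k j * |gn k (s : ℤ) j c| ≤ (n : ℤ) ^ wt c := by
    intro j c
    unfold gn om
    split_ifs with h
    · exact gv_bound (by omega) _ _
    · show _ * |(0 : ℤ)| ≤ _
      rw [abs_zero, mul_zero]
      exact pow_nonneg hnZ _
  have hgb1 : ∀ j (c : Jx k), |gn k (s : ℤ) j c| ≤ (n : ℤ) ^ wt c := by
    intro j c
    exact (le_mul_of_one_le_left (abs_nonneg _) (one_le_pow₀ hnZ1)).trans (hgb j c)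
  have hzb : ∀ (z : Fin 2 → ℤ) (B : ℤ), 0 ≤ B → (∀ j, |z j| ≤ B * (n : ℤ) ^ 5) →
      ∀ c : Jx k, |(zin z : W k) c| ≤ B * (n : ℤ) ^ wt c := by
    intro z B hB hz c
    rcases c with c | j
    · show |(0 : ℤ)| ≤ _
      rw [abs_zero]
      exact mul_nonneg hB (pow_nonneg hnZ _)
    · exact hz j
  have hs5 : (s : ℤ) ≤ (n : ℤ) ^ 5 := by
    calc (s : ℤ) ≤ n := by exact_mod_cast hsn
      _ ≤ (n : ℤ) ^ 5 := le_self_pow₀ hnZ1 (by norm_num)
  have h15 : (1 : ℤ) ≤ (n : ℤ) ^ 5 := one_le_pow₀ hnZ1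
  have hprb : ∀ j (c : Jx k), |pr k n (s : ℤ) j c| ≤ (n : ℤ) ^ wt c := by
    intro j c
    rcases j with _ | j
    · have h := hzb ![(n : ℤ) ^ 5, 0] 1 zero_le_one (by
        intro j
        fin_cases j
        · show |(n : ℤ) ^ 5| ≤ 1 * (n : ℤ) ^ 5
          rw [abs_of_nonneg (pow_nonneg hnZ 5), one_mul]
        · show |(0 : ℤ)| ≤ 1 * (n : ℤ) ^ 5
          rw [abs_zero]
          positivity) c
      rw [one_mul] at h
      exact h
    · show |(n : ℤ) ^ om k j • gn k (s : ℤ) j c| ≤ _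
      rw [smul_eq_mul, abs_mul, abs_of_nonneg (pow_nonneg hnZ _)]
      exact hgb j c
  have hX : ∀ x ∈ X, ∀ c, |x c| ≤ (2 * rr k + 2 : ℕ) * (n : ℤ) ^ wt c := by
    intro x hx c
    have hw : (0 : ℤ) ≤ (n : ℤ) ^ wt c := pow_nonneg hnZ _
    have hr : (0 : ℤ) ≤ (rr k : ℤ) := Int.natCast_nonneg _
    simp only [X, Finset.mem_insert, Finset.mem_image, Finset.mem_range] at hx
    push_cast
    rcases hx with rfl | rfl | ⟨j, -, rfl⟩
    · have h := hzb ![1, -(s : ℤ)] 1 zero_le_one (by
        intro j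
        fin_cases j
        · show |(1 : ℤ)| ≤ 1 * (n : ℤ) ^ 5
          rw [abs_one, one_mul]
          exact h15
        · show |-(s : ℤ)| ≤ 1 * (n : ℤ) ^ 5
          rw [abs_neg, abs_of_nonneg (Int.natCast_nonneg _), one_mul]
          exact hs5) c
      nlinarith
    · have h1 := hzb ![(α : ℤ), (β : ℤ)] 2 zero_le_two (by
        intro j
        fin_cases j
        · show |(α : ℤ)| ≤ 2 * (n : ℤ) ^ 5
          rw [abs_of_nonneg (Int.natCast_nonneg _)]
          exact_mod_cast hα
        · show |(β : ℤ)| ≤ 2 * (n : ℤ) ^ 5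
          rw [abs_of_nonneg (Int.natCast_nonneg _)]
          have : (β : ℤ) ≤ s := by exact_mod_cast hβ
          linarith) c
      have h2 : |(∑ j ∈ Finset.range (rr k), (d j : ℤ) • gn k (s : ℤ) j) c| ≤
          (rr k : ℤ) * (2 * (n : ℤ) ^ wt c) := by
        rw [Finset.sum_apply]
        refine (Finset.abs_sum_le_sum_abs _ _).trans ?_
        have h3 : ∀ j ∈ Finset.range (rr k), |((d j : ℤ) • gn k (s : ℤ) j) c| ≤
            2 * (n : ℤ) ^ wt c := by
          intro j _
          rw [Pi.smul_apply, smul_eq_mul, abs_mul, abs_of_nonneg (Int.natCast_nonneg _)]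
          have h4 : (d j : ℤ) ≤ 2 * (n : ℤ) ^ om k j := by exact_mod_cast hd2 j
          calc (d j : ℤ) * |gn k (s : ℤ) j c| ≤ 2 * (n : ℤ) ^ om k j * |gn k (s : ℤ) j c| :=
                mul_le_mul_of_nonneg_right h4 (abs_nonneg _)
            _ = 2 * ((n : ℤ) ^ om k j * |gn k (s : ℤ) j c|) := by ring
            _ ≤ 2 * (n : ℤ) ^ wt c := by linarith [hgb j c]
        refine (Finset.sum_le_sum h3).trans ?_
        rw [Finset.sum_const, Finset.card_range, nsmul_eq_mul]
      have h5 : |hpv c| ≤ |(∑ j ∈ Finset.range (rr k), (d j : ℤ) • gn k (s : ℤ) j) c| +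
          |(zin ![(α : ℤ), (β : ℤ)] : W k) c| := abs_add_le _ _
      nlinarith
    · have h5 : |(gn k (s : ℤ) j - pr k n (s : ℤ) j) c| ≤ |gn k (s : ℤ) j c| +
          |pr k n (s : ℤ) j c| := abs_sub _ _
      have := hgb1 j c
      have := hprb j c
      nlinarith
  refine ⟨X, hX, mem_HX hzX, ?_, ?_⟩
  · -- the central element
    have hg : ∀ j, j < rr k → gn k (s : ℤ) j - zin ![(Yf k n j : ℤ), 0] ∈ AX X s hL hzX := by
      intro j
      induction j with
      | zero =>
        intro h0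
        have h1 : gn k (s : ℤ) 0 - pr k n s 0 ∈ X := by
          simp only [X, Finset.mem_insert, Finset.mem_image, Finset.mem_range]
          exact Or.inr (Or.inr ⟨0, h0, rfl⟩)
        have h2 := mem_HX h1
        have h3 : pr k n (s : ℤ) 0 = zin ![(Yf k n 0 : ℤ), 0] := by
          show zin ![(n : ℤ) ^ 5, 0] = zin ![((n ^ 5 : ℕ) : ℤ), 0]
          push_cast
          rfl
        rw [h3] at h2
        exact h2
      | succ j ih =>
        intro hj
        have h1 : gn k (s : ℤ) (j + 1) - pr k n s (j + 1) ∈ X := by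
          simp only [X, Finset.mem_insert, Finset.mem_image, Finset.mem_range]
          exact Or.inr (Or.inr ⟨j + 1, hj, rfl⟩)
        have h2 : gn k (s : ℤ) (j + 1) - pr k n s (j + 1) ∈ AX X s hL hzX := mem_HX h1
        have h3 := (AX X s hL hzX).add_mem h2
          ((AX X s hL hzX).zsmul_mem (ih (by omega)) ((n : ℤ) ^ om k j))
        have h4 : gn k (s : ℤ) (j + 1) - pr k n s (j + 1) + (n : ℤ) ^ om k j •
            (gn k (s : ℤ) j - zin ![(Yf k n j : ℤ), 0]) =
            gn k (s : ℤ) (j + 1) - zin ![(Yf k n (j + 1) : ℤ), 0] := by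
          have h5 : (n : ℤ) ^ om k j • (zin ![(Yf k n j : ℤ), 0] : W k) =
              zin ![(Yf k n (j + 1) : ℤ), 0] := by
            funext c
            rcases c with c | i
            · show (n : ℤ) ^ om k j • (0 : ℤ) = 0
              rw [smul_zero]
            · fin_cases i
              · show (n : ℤ) ^ om k j • (Yf k n j : ℤ) = ((n ^ om k j * Yf k n j : ℕ) : ℤ)
                push_cast
                rfl
              · show (n : ℤ) ^ om k j • (0 : ℤ) = 0
                rw [smul_zero]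
          rw [pr, smul_sub, h5]
          abel
        rw [h4] at h3
        exact h3
    have hhpA : hpv ∈ AX X s hL hzX := by
      refine mem_HX ?_
      simp [X]
    have h6 := (AX X s hL hzX).sub_mem hhpA ((AX X s hL hzX).sum_mem
      (t := Finset.range (rr k)) (f := fun j => (d j : ℤ) •
        (gn k (s : ℤ) j - zin ![(Yf k n j : ℤ), 0]))
      fun j hj => (AX X s hL hzX).zsmul_mem (hg j (Finset.mem_range.1 hj)) _)
    refine ⟨![(α : ℤ) + ∑ j ∈ Finset.range (rr k), (d j : ℤ) * (Yf k n j : ℤ), (β : ℤ)], ?_, ?_⟩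
    · have h7 : hpv - ∑ j ∈ Finset.range (rr k), (d j : ℤ) •
          (gn k (s : ℤ) j - zin ![(Yf k n j : ℤ), 0]) = zin ![(α : ℤ) +
            ∑ j ∈ Finset.range (rr k), (d j : ℤ) * (Yf k n j : ℤ), (β : ℤ)] := by
        have h8 : ∑ j ∈ Finset.range (rr k), (d j : ℤ) •
            (gn k (s : ℤ) j - zin ![(Yf k n j : ℤ), 0]) =
            ∑ j ∈ Finset.range (rr k), (d j : ℤ) • gn k (s : ℤ) j -
            ∑ j ∈ Finset.range (rr k), (d j : ℤ) • (zin ![(Yf k n j : ℤ), 0] : W k) := by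
          rw [← Finset.sum_sub_distrib]
          refine Finset.sum_congr rfl fun j _ => ?_
          rw [smul_sub]
        have h9 : ∑ j ∈ Finset.range (rr k), (d j : ℤ) • (zin ![(Yf k n j : ℤ), 0] : W k) =
            zin ![∑ j ∈ Finset.range (rr k), (d j : ℤ) * (Yf k n j : ℤ), 0] := by
          funext c
          rw [Finset.sum_apply]
          rcases c with c | i
          · refine Finset.sum_eq_zero fun j _ => ?_
            show (d j : ℤ) • (0 : ℤ) = 0
            rw [smul_zero]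
          · fin_cases i
            · rfl
            · refine Finset.sum_eq_zero fun j _ => ?_
              show (d j : ℤ) • (0 : ℤ) = 0
              rw [smul_zero]
        rw [h8, h9]
        show ∑ j ∈ Finset.range (rr k), (d j : ℤ) • gn k (s : ℤ) j + zin ![(α : ℤ), (β : ℤ)] -
          (_ - _) = _
        have h10 : (zin ![(α : ℤ) + ∑ j ∈ Finset.range (rr k), (d j : ℤ) * (Yf k n j : ℤ),
            (β : ℤ)] : W k) = zin ![(α : ℤ), (β : ℤ)] +
            zin ![∑ j ∈ Finset.range (rr k), (d j : ℤ) * (Yf k n j : ℤ), 0] := by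
          rw [← zin_add]
          congr 1
          funext i
          fin_cases i <;> simp
        rw [h10]
        abel
      rw [h7] at h6
      exact h6
    · show (s : ℤ) * ((α : ℤ) + ∑ j ∈ Finset.range (rr k), (d j : ℤ) * (Yf k n j : ℤ)) +
        (β : ℤ) = (p : ℤ)
      have h11 : (p : ℤ) = ((s * α + β +
        ∑ i ∈ Finset.range (rr k), d i * (s * Yf k n i) : ℕ) : ℤ) := by exact_mod_cast hd1
      rw [h11]
      push_cast
      rw [mul_add, Finset.mul_sum]
      have h12 : ∑ i ∈ Finset.range (rr k), (s : ℤ) * ((d i : ℤ) * (Yf k n i : ℤ)) =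
          ∑ i ∈ Finset.range (rr k), (d i : ℤ) * ((s : ℤ) * (Yf k n i : ℤ)) := by
        refine Finset.sum_congr rfl fun j _ => ?_
        ring
      rw [h12]
      ring
  · -- the separation
    intro hmem
    have hps : ∀ g ∈ HX X, g.x ∈ Lz (s : ℤ) ∧ (p : ℤ) ∣ ps k n s g.x := by
      intro g hg
      refine Subgroup.closure_induction
        (p := fun g _ => g.x ∈ Lz (s : ℤ) ∧ (p : ℤ) ∣ ps k n s g.x) ?_ ?_ ?_ ?_ hg
      · rintro _ ⟨x, hx, rfl⟩
        refine ⟨hL x hx, ?_⟩
        have hx' : x ∈ X := hx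
        simp only [X, Finset.mem_insert, Finset.mem_image, Finset.mem_range] at hx'
        rcases hx' with rfl | rfl | ⟨j, hj, rfl⟩
        · show (p : ℤ) ∣ ps k n s (zin ![1, -(s : ℤ)])
          rw [ps_zin]
          simp
        · show (p : ℤ) ∣ ps k n s hpv
          have h1 : ps k n s hpv = p := by
            show ps k n s (∑ j ∈ Finset.range (rr k), (d j : ℤ) • gn k (s : ℤ) j +
              zin ![(α : ℤ), (β : ℤ)]) = p
            rw [map_add, ps_zin, map_sum]
            have h2 : ∀ j ∈ Finset.range (rr k), ps k n s ((d j : ℤ) • gn k (s : ℤ) j) =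
                (d j : ℤ) * ((s : ℤ) * (Yf k n j : ℤ)) := by
              intro j hj
              have h3 := ps_gv k n s ⟨j, Finset.mem_range.1 hj⟩
              rw [← gn_eq] at h3
              rw [map_zsmul, smul_eq_mul]
              exact congrArg _ h3
            rw [Finset.sum_congr rfl h2]
            have h11 : (p : ℤ) = ((s * α + β +
              ∑ i ∈ Finset.range (rr k), d i * (s * Yf k n i) : ℕ) : ℤ) := by exact_mod_cast hd1
            rw [h11]
            push_cast
            show _ + ((s : ℤ) * (α : ℤ) + (β : ℤ)) = _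
            ring
          rw [h1]
        · show (p : ℤ) ∣ ps k n s (gn k (s : ℤ) j - pr k n s j)
          have h3 : ∀ j, j < rr k → ps k n s (gn k (s : ℤ) j) = (s : ℤ) * (Yf k n j : ℤ) := by
            intro j hj
            have h3 := ps_gv k n s ⟨j, hj⟩
            rw [← gn_eq] at h3
            exact h3
          have h4 : ps k n s (pr k n s j) = (s : ℤ) * (Yf k n j : ℤ) := by
            rcases j with _ | j
            · show ps k n s (zin ![(n : ℤ) ^ 5, 0]) = (s : ℤ) * ((n ^ 5 : ℕ) : ℤ)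
              rw [ps_zin]
              push_cast
              show (s : ℤ) * (n : ℤ) ^ 5 + 0 = _
              rw [add_zero]
            · show ps k n s (((n : ℤ) ^ om k j) • gn k s j) =
                (s : ℤ) * ((n ^ om k j * Yf k n j : ℕ) : ℤ)
              rw [map_zsmul, h3 j (by omega), smul_eq_mul]
              push_cast
              ring
          rw [map_sub, h3 j hj, h4, sub_self]
          exact dvd_zero _
      · refine ⟨(Lz (s : ℤ)).zero_mem, ?_⟩
        show (p : ℤ) ∣ ps k n s 0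
        rw [map_zero]
        exact dvd_zero _
      · intro g h hg hh h1 h2
        rw [Gp.mul_x, HX_m hg, tp_zero]
        refine ⟨(Lz (s : ℤ)).add_mem ((Lz (s : ℤ)).add_mem h1.1 h2.1) (zin_mem_Lz _ _), ?_⟩
        rw [map_add, map_add, Bf, bz_Lz (s : ℤ) h1.1 h2.1, ps_zin]
        refine dvd_add (dvd_add h1.2 h2.2) ?_
        have h3 : (s : ℤ) * (bf0 (pv g.x) (pv h.x) • ![1, -(s : ℤ)]) 0 +
            (bf0 (pv g.x) (pv h.x) • ![1, -(s : ℤ)]) 1 = 0 := by
          simp
          ring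
        rw [h3]
        exact dvd_zero _
      · intro g hg h1
        rw [Gp.inv_x, HX_m hg, neg_zero, tp_zero, map_neg]
        exact ⟨(Lz (s : ℤ)).neg_mem h1.1, (dvd_neg).2 h1.2⟩
    have h1 := (hps _ hmem).2
    rw [ps_zin] at h1
    have h2 : (s : ℤ) * (![0, 1] : Fin 2 → ℤ) 0 + (![0, 1] : Fin 2 → ℤ) 1 = 1 := by simp
    rw [h2] at h1
    have h3 : p ∣ 1 := by exact_mod_cast h1
    exact hp.one_lt.ne' (Nat.dvd_one.1 h3)

end Pool.Agent.SBG.H21
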